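import Pool.Agent.Helper34_MT.Pser

/-!
# Analytic solutions at the conifold point (MT100)
-/

set_option autoImplicit false

namespace Pool.Agent.MT100.H34

open Filter Topology Set

theorem Geo.mono {a : ℕ → ℝ} {M M' K : ℝ} (h : Geo a M K) (hM : M ≤ M') (hK : 0 ≤ K) :
    Geo a M' K := fun k => (h k).trans (by gcongr)

/-- Convergence. -/
def Sm (a : ℕ → ℝ) (u : ℝ) : Prop := Summable fun k => a k * u ^ k

variable {a b : ℕ → ℝ} {u : ℝ}

theorem Sm.add (ha : Sm a u) (hb : Sm b u) : Sm (fun k => a k + b k) u := by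
  unfold Sm at *
  refine (Summable.add ha hb).congr fun k => by ring

theorem Sm.mul (ha : Sm a u) (x : ℝ) : Sm (fun k => x * a k) u := by
  unfold Sm at *
  refine (Summable.mul_left x ha).congr fun k => by ring

theorem ser_add (ha : Sm a u) (hb : Sm b u) : ser (fun k => a k + b k) u = ser a u + ser b u := by
  unfold ser
  rw [← Summable.tsum_add ha hb]
  exact tsum_congr fun k => by ring

theorem ser_mul (x : ℝ) : ser (fun k => x * a k) u = x * ser a u := by
  unfold ser
  rw [← tsum_mul_left]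
  exact tsum_congr fun k => by ring

theorem ser_succ (ha : Sm a u) : ser a u = a 0 + u * ser (fun k => a (k + 1)) u := by
  unfold ser
  rw [Summable.tsum_eq_zero_add ha, ← tsum_mul_left]
  simp only [pow_zero, mul_one]
  congr 1
  exact tsum_congr fun k => by ring

theorem Sm.succ (ha : Sm a u) : Sm (fun k => a (k + 1)) u := by
  unfold Sm at *
  by_cases hu : u = 0
  · subst hu
    refine summable_of_ne_finset_zero (s := {0}) fun k hk => ?_
    have : k ≠ 0 := by simpa using hk
    simp [this]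
  · have h1 := ((summable_nat_add_iff 1).mpr ha).mul_left u⁻¹
    refine h1.congr fun k => ?_
    rw [pow_succ]
    field_simp

theorem ser_sum {ι : Type*} (t : Finset ι) (f : ι → ℕ → ℝ) (hf : ∀ i ∈ t, Sm (f i) u) :
    ser (fun k => ∑ i ∈ t, f i k) u = ∑ i ∈ t, ser (f i) u := by
  unfold ser
  rw [← Summable.tsum_finsetSum hf]
  exact tsum_congr fun k => by rw [Finset.sum_mul]

variable {r : ℕ}

/-- Shift of a vector. -/
def sh (y : Fin r → ℝ) (i : Fin r) : ℝ := if h : i.val + 1 < r then y ⟨i.val + 1, h⟩ else 0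

theorem abs_sh_le (y : Fin r → ℝ) {B : ℝ} (h : ∀ i, |y i| ≤ B) (hB : 0 ≤ B) (i : Fin r) :
    |sh y i| ≤ B := by
  unfold sh
  split_ifs
  · exact h _
  · simpa

section rec

variable (la : Fin r) (c : Fin r → ℝ) (C : ℝ) (s : ℕ) (y0 : Fin r → ℝ)

/-- Coefficients of the analytic solution with initial value `y0`. -/
noncomputable def ys : ℕ → Fin r → ℝ
  | 0 => y0
  | k + 1 => fun i =>
    -(C * ((k : ℝ) + 1))⁻¹ * ((sh (ys k) i + k * ys k i) -
      if i = la then (∑ a, c a * (sh (ys k) a + k * ys k a)) / ((k : ℝ) + 1 + s) else 0)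

theorem ys_succ (k : ℕ) (i : Fin r) : ys la c C s y0 (k + 1) i =
    -(C * ((k : ℝ) + 1))⁻¹ * ((sh (ys la c C s y0 k) i + k * ys la c C s y0 k i) -
      if i = la then (∑ a, c a * (sh (ys la c C s y0 k) a + k * ys la c C s y0 k a)) /
        ((k : ℝ) + 1 + s) else 0) := rfl

theorem ys_bound {C : ℝ} (hC : 0 < C) {M : ℝ} (hM : ∀ i, |y0 i| ≤ M) (hM0 : 0 ≤ M) (k : ℕ)
    (i : Fin r) : |ys la c C s y0 k i| ≤ M * ((1 + ∑ a, |c a|) / C) ^ k := by
  induction k generalizing i with
  | zero => simpa [ys] using hM i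
  | succ k ih =>
    set K : ℝ := (1 + ∑ a, |c a|) / C with hK
    have hS : 0 ≤ ∑ a, |c a| := Finset.sum_nonneg fun a _ => abs_nonneg _
    have hK0 : 0 ≤ K := by positivity
    set B : ℝ := M * K ^ k with hB
    have hB0 : 0 ≤ B := by positivity
    have hk0 : (0 : ℝ) ≤ k := Nat.cast_nonneg k
    have hx : ∀ a, |sh (ys la c C s y0 k) a + k * ys la c C s y0 k a| ≤ ((k : ℝ) + 1) * B := by
      intro a
      calc _ ≤ |sh (ys la c C s y0 k) a| + |(k : ℝ) * ys la c C s y0 k a| := abs_add_le _ _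
        _ ≤ B + k * B := by
            rw [abs_mul, Nat.abs_cast]
            gcongr
            · exact abs_sh_le _ ih hB0 a
            · exact ih a
        _ = _ := by ring
    rw [ys_succ, abs_mul, abs_neg, abs_inv, abs_of_pos (show 0 < C * ((k : ℝ) + 1) by positivity)]
    have h1 : |(if i = la then (∑ a, c a * (sh (ys la c C s y0 k) a + k * ys la c C s y0 k a)) /
        ((k : ℝ) + 1 + s) else 0)| ≤ (∑ a, |c a|) * (((k : ℝ) + 1) * B) := by
      have h0 : 0 ≤ (∑ a, |c a|) * (((k : ℝ) + 1) * B) := by positivity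
      split_ifs with hi
      · have hs0 : (0 : ℝ) ≤ s := Nat.cast_nonneg s
        rw [abs_div, abs_of_pos (show (0 : ℝ) < (k : ℝ) + 1 + s by positivity)]
        have h2 : |∑ a, c a * (sh (ys la c C s y0 k) a + k * ys la c C s y0 k a)| ≤
            (∑ a, |c a|) * (((k : ℝ) + 1) * B) := by
          refine (Finset.abs_sum_le_sum_abs _ _).trans ?_
          rw [Finset.sum_mul]
          refine Finset.sum_le_sum fun a _ => ?_
          rw [abs_mul]
          exact mul_le_mul_of_nonneg_left (hx a) (abs_nonneg _)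
        refine (div_le_self (abs_nonneg _) ?_).trans h2
        linarith
      · simpa using h0
    calc (C * ((k : ℝ) + 1))⁻¹ * |_| ≤ (C * ((k : ℝ) + 1))⁻¹ *
          ((1 + ∑ a, |c a|) * (((k : ℝ) + 1) * B)) := by
            refine mul_le_mul_of_nonneg_left ?_ (by positivity)
            refine (abs_sub _ _).trans ?_
            calc _ ≤ ((k : ℝ) + 1) * B + (∑ a, |c a|) * (((k : ℝ) + 1) * B) := add_le_add (hx i) h1
              _ = _ := by ring
      _ = M * K ^ (k + 1) := by
            rw [hB, pow_succ, hK]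
            field_simp

/-- The defining relation of the coefficients. -/
theorem ys_rel {C : ℝ} (hC : 0 < C) {s : ℕ} (hc : c la = s) (k : ℕ) (i : Fin r) :
    C * (((k : ℝ) + 1) * ys la c C s y0 (k + 1) i) + k * ys la c C s y0 k i =
      -(sh (ys la c C s y0 k) i) -
        if i = la then C * ∑ a, c a * ys la c C s y0 (k + 1) a else 0 := by
  have hk0 : (0 : ℝ) ≤ k := Nat.cast_nonneg k
  have hs0 : (0 : ℝ) ≤ s := Nat.cast_nonneg s
  set x : Fin r → ℝ := fun a => sh (ys la c C s y0 k) a + k * ys la c C s y0 k a with hx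
  have h1 : ∀ i, ys la c C s y0 (k + 1) i = -(C * ((k : ℝ) + 1))⁻¹ * (x i -
      if i = la then (∑ a, c a * x a) / ((k : ℝ) + 1 + s) else 0) := fun i => ys_succ _ _ _ _ _ _ _
  have h2 : ∑ a, c a * ys la c C s y0 (k + 1) a = -(C * ((k : ℝ) + 1))⁻¹ *
      ((∑ a, c a * x a) * (((k : ℝ) + 1) / ((k : ℝ) + 1 + s))) := by
    have h3 : ∀ a, c a * ys la c C s y0 (k + 1) a = -(C * ((k : ℝ) + 1))⁻¹ * (c a * x a) +
        (if a = la then (C * ((k : ℝ) + 1))⁻¹ * (c la * ((∑ a, c a * x a) / ((k : ℝ) + 1 + s)))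
          else 0) := by
      intro a
      rw [h1]
      split_ifs with h
      · rw [h]; ring
      · ring
    rw [Finset.sum_congr rfl fun a _ => h3 a, Finset.sum_add_distrib, ← Finset.mul_sum,
      Finset.sum_ite_eq' Finset.univ la, if_pos (Finset.mem_univ _), hc]
    field_simp
    ring
  rw [h2, h1]
  have h4 : sh (ys la c C s y0 k) i = x i - k * ys la c C s y0 k i := by rw [hx]; ring
  rw [h4]
  split_ifs with h
  · field_simp
    ring
  · field_simp
    ring

end rec

end Pool.Agent.MT100.H34
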