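import Pool.Agent.Helper34_MT.Con2

/-!
# Structure of the solutions at the conifold point (MT100): the general theorem
-/

set_option autoImplicit false

namespace Pool.Agent.MT100.H34

open Filter Topology Set Matrix

theorem sh_add {r : ℕ} (y z : Fin r → ℝ) (i : Fin r) :
    sh (fun a => y a + z a) i = sh y i + sh z i := by
  unfold sh
  split_ifs <;> simp

theorem sh_sum {r : ℕ} {ι : Type*} (t : Finset ι) (y : ι → Fin r → ℝ) (x : ι → ℝ) (i : Fin r) :
    sh (fun a => ∑ j ∈ t, y j a * x j) i = ∑ j ∈ t, sh (y j) i * x j := by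
  unfold sh
  split_ifs <;> simp

theorem sum_aux {r : ℕ} (S T x : Fin r → ℝ) (C p q : ℝ) :
    ∑ j, -(S j / p + C * T j / q) * x j =
      -((∑ j, S j * x j) / p + C * (∑ j, T j * x j) / q) := by
  have h : ∀ j, -(S j / p + C * T j / q) * x j = -(p⁻¹ * (S j * x j)) - C * q⁻¹ * (T j * x j) := by
    intro j
    rw [div_eq_mul_inv, div_eq_mul_inv]
    ring
  rw [Finset.sum_congr rfl fun j _ => h j, Finset.sum_sub_distrib, Finset.sum_neg_distrib,
    ← Finset.mul_sum, ← Finset.mul_sum, div_eq_mul_inv, div_eq_mul_inv]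
  ring

section main

variable {r : ℕ} (la : Fin r) (c : Fin r → ℝ) {C : ℝ} {s : ℕ}

/-- coordinates of the solutions in terms of the analytic solutions: the differential equation -/
theorem coord_ode (hC : 0 < C) (hs : 1 ≤ s) (hc : c la = s)
    (W : ℝ → Matrix (Fin r) (Fin r) ℝ)
    (hW : ∀ w, C < w → ∀ i q, HasDerivAt (fun x => W x i q)
      (-(sh (fun a => W w a q) i / w +
        (if i = la then C * ∑ a, c a * W w a q else 0) / (w * (w - C)))) w) :
    ∃ θ : Fin r → ℝ → ℝ, (∀ i, AnalyticAt ℝ (θ i) 0) ∧ ∀ᶠ u in 𝓝[>] 0, ∀ i q,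
      HasDerivAt (fun u => ((Zm la c C s u)⁻¹ * W (C + u)) i q)
        (-(((Zm la c C s u)⁻¹ * W (C + u)) la q) *
          (θ i u / (C + u) + (if i = la then C * s / ((C + u) * u) else 0))) u := by
  have hZan := Zm_analytic la c C s hC
  have hZ0 : IsUnit (Zm la c C s 0).det := Zm_zero_isUnit la c
  have hRan := analyticAt_inv hZan hZ0
  refine ⟨fun i u => ∑ j, (Zm la c C s u)⁻¹ i j * (if j.val + 1 = la.val then 1 else 0),
    fun i => Finset.analyticAt_fun_sum _ fun j _ => (hRan i j).mul analyticAt_const, ?_⟩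
  have hdet : ∀ᶠ u in 𝓝 (0 : ℝ), (Zm la c C s u).det ≠ 0 :=
    (analyticAt_det hZan).continuousAt.eventually_ne hZ0.ne_zero
  have hRe : ∀ᶠ u in 𝓝 (0 : ℝ), ∀ i j, AnalyticAt ℝ (fun u => (Zm la c C s u)⁻¹ i j) u := by
    rw [eventually_all]
    intro i
    rw [eventually_all]
    exact fun j => (hRan i j).eventually_analyticAt
  filter_upwards [nhdsWithin_le_nhds hdet, nhdsWithin_le_nhds hRe, nhdsWithin_le_nhds
    (eventually_small (Kc c C)), self_mem_nhdsWithin] with u hdu hRu hKu hu0
  have hu0' : (0 : ℝ) < u := hu0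
  have hCu : (0 : ℝ) < C + u := by linarith
  have hunit : IsUnit (Zm la c C s u).det := isUnit_iff_ne_zero.mpr hdu
  -- `W` as a function of `u`
  have hWu : ∀ i q, HasDerivAt (fun u => W (C + u) i q)
      (-(sh (fun a => W (C + u) a q) i / (C + u) +
        (if i = la then C * ∑ a, c a * W (C + u) a q else 0) / ((C + u) * u))) u := by
    intro i q
    have h1 := hW (C + u) (by linarith) i q
    have h2 : C + u - C = u := by ring
    rw [h2] at h1
    exact h1.comp_const_add C u
  -- differentiability of the coordinates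
  have hX : ∀ i q, ∃ x', HasDerivAt (fun u => ((Zm la c C s u)⁻¹ * W (C + u)) i q) x' u := by
    intro i q
    simp only [Matrix.mul_apply]
    exact ⟨_, HasDerivAt.fun_sum fun j _ => ((hRu i j).differentiableAt.hasDerivAt).mul (hWu j q)⟩
  choose X' hX' using hX
  -- derivative of the columns of `Z`
  have hZd : ∀ i j, ∃ Z', HasDerivAt (fun u => Zm la c C s u i j) Z' u ∧
      Z' = if j = la then 0 else -(sh (fun a => Zm la c C s u a j) i / (C + u) +
        (if i = la then C * ∑ a, c a * Zm la c C s u a j else 0) / ((C + u) * u)) := by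
    intro i j
    by_cases hj : j = la
    · refine ⟨0, ?_, by rw [if_pos hj]⟩
      have : (fun u => Zm la c C s u i j) = fun _ => if i = la then 1 else 0 := by
        funext u
        rw [hj, Zm_last]
      rw [this]
      exact hasDerivAt_const _ _
    · obtain ⟨Z', h1, h2⟩ := Zm_hasDerivAt la c hC hs hc hKu i j hj
      refine ⟨Z', h1, ?_⟩
      rw [if_neg hj]
      have h3 : (C + u) * u ≠ 0 := by positivity
      have h4 : Z' = ((C + u) * u * Z') / ((C + u) * u) := by field_simp
      rw [h4, h2]
      split_ifs <;> field_simp <;> ring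
  choose Z' hZ1 hZ2 using hZd
  have hZW : ∀ᶠ y in 𝓝 u, Zm la c C s y * ((Zm la c C s y)⁻¹ * W (C + y)) = W (C + y) := by
    have h1 : ∀ᶠ y in 𝓝 u, (Zm la c C s y).det ≠ 0 := by
      have h2 : ∀ i j, DifferentiableAt ℝ (fun u => Zm la c C s u i j) u := fun i j =>
        (hZ1 i j).differentiableAt
      have h3 : ContinuousAt (fun y => (Zm la c C s y).det) u := by
        simp only [Matrix.det_apply]
        refine tendsto_finsetSum _ fun σ _ => ?_
        refine Tendsto.const_smul (tendsto_finsetProd _ fun k _ => ?_) _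
        exact (h2 _ _).continuousAt
      exact h3.eventually_ne hdu
    filter_upwards [h1] with y hy
    rw [← Matrix.mul_assoc, Matrix.mul_nonsing_inv _ (isUnit_iff_ne_zero.mpr hy), Matrix.one_mul]
  set X : Matrix (Fin r) (Fin r) ℝ := (Zm la c C s u)⁻¹ * W (C + u) with hXdef
  have hWX : ∀ i q, W (C + u) i q = ∑ j, Zm la c C s u i j * X j q := by
    intro i q
    rw [← Matrix.mul_apply, hZW.self_of_nhds]
  -- the equation `Z X' = W' - Z' X`
  have heq : ∀ i q, ∑ j, Zm la c C s u i j * X' j q = -X la q *
      (sh (fun a => Zm la c C s u a la) i / (C + u) +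
        (if i = la then C * ∑ a, c a * Zm la c C s u a la else 0) / ((C + u) * u)) := by
    intro i q
    have h1 : HasDerivAt (fun y => ∑ j, Zm la c C s y i j *
        ((Zm la c C s y)⁻¹ * W (C + y)) j q) (∑ j, (Z' i j * X j q + Zm la c C s u i j * X' j q)) u :=
      HasDerivAt.fun_sum fun j _ => (hZ1 i j).mul (hX' j q)
    have h2 : (fun y => ∑ j, Zm la c C s y i j * ((Zm la c C s y)⁻¹ * W (C + y)) j q) =ᶠ[𝓝 u]
        fun y => W (C + y) i q := by
      filter_upwards [hZW] with y hy
      rw [← Matrix.mul_apply, hy]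
    have h3 := (h1.congr_of_eventuallyEq h2.symm).unique (hWu i q)
    have h4 : sh (fun a => W (C + u) a q) i = ∑ j, sh (fun a => Zm la c C s u a j) i * X j q := by
      rw [← sh_sum]
      congr 1
      funext a
      exact hWX a q
    have h5 : ∑ a, c a * W (C + u) a q = ∑ j, (∑ a, c a * Zm la c C s u a j) * X j q := by
      simp only [hWX, Finset.mul_sum, Finset.sum_mul]
      rw [Finset.sum_comm]
      exact Finset.sum_congr rfl fun j _ => Finset.sum_congr rfl fun a _ => by ring
    have h6 : ∑ j, Z' i j * X j q = -(sh (fun a => W (C + u) a q) i / (C + u) +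
        (if i = la then C * ∑ a, c a * W (C + u) a q else 0) / ((C + u) * u)) +
        X la q * (sh (fun a => Zm la c C s u a la) i / (C + u) +
        (if i = la then C * ∑ a, c a * Zm la c C s u a la else 0) / ((C + u) * u)) := by
      have h7 : ∀ j, Z' i j * X j q = -(sh (fun a => Zm la c C s u a j) i / (C + u) +
        (if i = la then C * ∑ a, c a * Zm la c C s u a j else 0) / ((C + u) * u)) * X j q +
        (if j = la then (sh (fun a => Zm la c C s u a j) i / (C + u) +
        (if i = la then C * ∑ a, c a * Zm la c C s u a j else 0) / ((C + u) * u)) * X j q else 0) := by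
        intro j
        rw [hZ2]
        split_ifs <;> ring
      rw [Finset.sum_congr rfl fun j _ => h7 j, Finset.sum_add_distrib, Finset.sum_ite_eq',
        if_pos (Finset.mem_univ _), h4, h5]
      have h8 : ∑ j, -(sh (fun a => Zm la c C s u a j) i / (C + u) +
          (if i = la then C * ∑ a, c a * Zm la c C s u a j else 0) / ((C + u) * u)) * X j q =
          -((∑ j, sh (fun a => Zm la c C s u a j) i * X j q) / (C + u) +
          (if i = la then C * ∑ j, (∑ a, c a * Zm la c C s u a j) * X j q else 0) /
            ((C + u) * u)) := by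
        split_ifs
        · exact sum_aux _ _ _ _ _ _
        · simp only [zero_div, add_zero, Finset.sum_div, ← Finset.sum_neg_distrib]
          exact Finset.sum_congr rfl fun j _ => by ring
      rw [h8]
      ring
    rw [Finset.sum_add_distrib, h6] at h3
    linarith
  intro i q
  have hcs : ∑ a, c a * Zm la c C s u a la = s := by
    have : ∀ a, c a * Zm la c C s u a la = if a = la then c a else 0 := by
      intro a
      rw [Zm_last]
      split_ifs <;> ring
    rw [Finset.sum_congr rfl fun a _ => this a, Finset.sum_ite_eq', if_pos (Finset.mem_univ _), hc]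
  have hsh : ∀ i, sh (fun a => Zm la c C s u a la) i = if i.val + 1 = la.val then 1 else 0 := by
    intro i
    unfold sh
    by_cases h : i.val + 1 < r
    · rw [dif_pos h]
      show Zm la c C s u ⟨i.val + 1, h⟩ la = _
      rw [Zm_last]
      simp [Fin.ext_iff]
    · rw [dif_neg h, if_neg]
      have := la.isLt
      omega
  have hfin : X' i q = -X la q * ((∑ j, (Zm la c C s u)⁻¹ i j *
      (if j.val + 1 = la.val then 1 else 0)) / (C + u) +
      (if i = la then C * s / ((C + u) * u) else 0)) := by
    have hRla : ∀ i, (Zm la c C s u)⁻¹ i la = if i = la then 1 else 0 := by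
      intro i
      have h1 : (Zm la c C s u)⁻¹ * Zm la c C s u = 1 := Matrix.nonsing_inv_mul _ hunit
      have h2 : ((Zm la c C s u)⁻¹ * Zm la c C s u) i la = (Zm la c C s u)⁻¹ i la := by
        rw [Matrix.mul_apply]
        have : ∀ x, (Zm la c C s u)⁻¹ i x * Zm la c C s u x la =
            if x = la then (Zm la c C s u)⁻¹ i x else 0 := by
          intro x
          rw [Zm_last]
          split_ifs <;> ring
        rw [Finset.sum_congr rfl fun x _ => this x, Finset.sum_ite_eq', if_pos (Finset.mem_univ _)]
      rw [← h2, h1, Matrix.one_apply]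
    have h1 : X' i q = ∑ k, (Zm la c C s u)⁻¹ i k * ∑ j, Zm la c C s u k j * X' j q := by
      have h2 : ∀ M : Matrix (Fin r) (Fin r) ℝ, ((Zm la c C s u)⁻¹ * (Zm la c C s u * M)) = M := by
        intro M
        rw [← Matrix.mul_assoc, Matrix.nonsing_inv_mul _ hunit, Matrix.one_mul]
      have h3 := congrFun (congrFun (h2 X') i) q
      rw [Matrix.mul_apply] at h3
      simp only [Matrix.mul_apply] at h3
      exact h3.symm
    rw [h1]
    have h4 : ∀ k, (Zm la c C s u)⁻¹ i k * ∑ j, Zm la c C s u k j * X' j q =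
        -X la q * (((Zm la c C s u)⁻¹ i k * (if k.val + 1 = la.val then 1 else 0)) / (C + u)) +
        (if k = la then -X la q * ((Zm la c C s u)⁻¹ i k * (C * s / ((C + u) * u))) else 0) := by
      intro k
      rw [heq, hcs, hsh]
      split_ifs <;> ring
    rw [Finset.sum_congr rfl fun k _ => h4 k, Finset.sum_add_distrib, Finset.sum_ite_eq',
      if_pos (Finset.mem_univ _), hRla, ← Finset.mul_sum, ← Finset.sum_div]
    split_ifs <;> ring
  rw [← hfin]
  exact hX' i q

end main

end Pool.Agent.MT100.H34
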