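import Pool.Agent.Helper34_MT.Con3

/-!
# The conifold point (MT100): logarithmic structure of the fundamental matrix
-/

set_option autoImplicit false

namespace Pool.Agent.MT100.H34

open Filter Topology Set Matrix

theorem merG_of {f g : ℝ → ℝ} (k : ℕ) (hg : AnalyticAt ℝ g 0)
    (h : ∀ᶠ u in 𝓝[>] 0, f u = (u ^ k)⁻¹ * g u) : MerG f := by
  refine ⟨k, g, hg, ?_⟩
  filter_upwards [h, self_mem_nhdsWithin] with u hu hu0
  have : (u : ℝ) ≠ 0 := ne_of_gt hu0
  rw [hu]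
  field_simp

section main

variable {r : ℕ} (la : Fin r) (c : Fin r → ℝ) {C : ℝ} {s : ℕ}

/-- the coordinates -/
theorem coord_form (hC : 0 < C) (hs : 1 ≤ s) (hc : c la = s)
    (W : ℝ → Matrix (Fin r) (Fin r) ℝ)
    (hW : ∀ w, C < w → ∀ i q, HasDerivAt (fun x => W x i q)
      (-(sh (fun a => W w a q) i / w +
        (if i = la then C * ∑ a, c a * W w a q else 0) / (w * (w - C)))) w) :
    ∃ (κ : Matrix (Fin r) (Fin r) ℝ) (l ρ : Fin r → ℝ) (G : Fin r → ℝ → ℝ),
      (∀ i, AnalyticAt ℝ (G i) 0) ∧ (∀ u, 0 < G la u) ∧ ρ la = 0 ∧ (∀ q, κ la q = 0) ∧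
      ∀ᶠ u in 𝓝[>] 0, ∀ i q, ((Zm la c C s u)⁻¹ * W (C + u)) i q =
        κ i q + ((u ^ s)⁻¹ * G i u + ρ i * Real.log u) * l q := by
  obtain ⟨θ, hθ, hode⟩ := coord_ode la c hC hs hc W hW
  have hCu : AnalyticAt ℝ (fun u : ℝ => (C + u)⁻¹) 0 :=
    (analyticAt_const.add analyticAt_id).inv (by simpa using hC.ne')
  -- exponent of the last coordinate
  obtain ⟨E, hE, hE'⟩ := exists_antideriv (f := fun u => (θ la u - s) * (C + u)⁻¹)
    (((hθ la).sub analyticAt_const).mul hCu)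
  have hexp : AnalyticAt ℝ (fun u => Real.exp (-E u)) 0 := by
    exact hE.neg.rexp
  -- antiderivatives for the other coordinates
  have hF : ∀ i, ∃ (G : ℝ → ℝ) (ρ : ℝ), AnalyticAt ℝ G 0 ∧
      ∀ᶠ u in 𝓝[>] 0, HasDerivAt (fun u => (u ^ s)⁻¹ * G u + ρ * Real.log u)
        ((u ^ s)⁻¹ * (-(Real.exp (-E u) * (θ i u * (C + u)⁻¹)))) u := fun i =>
    exists_antideriv_pole s (hexp.mul ((hθ i).mul hCu)).neg
  choose G0 ρ0 hG0 hG0' using hF
  have hall : ∀ᶠ u in 𝓝[>] (0 : ℝ), 0 < u ∧ (∀ i q,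
      HasDerivAt (fun u => ((Zm la c C s u)⁻¹ * W (C + u)) i q)
        (-(((Zm la c C s u)⁻¹ * W (C + u)) la q) *
          (θ i u / (C + u) + (if i = la then C * s / ((C + u) * u) else 0))) u) ∧
      HasDerivAt E ((θ la u - s) * (C + u)⁻¹) u ∧ ∀ i,
      HasDerivAt (fun u => (u ^ s)⁻¹ * G0 i u + ρ0 i * Real.log u)
        ((u ^ s)⁻¹ * (-(Real.exp (-E u) * (θ i u * (C + u)⁻¹)))) u := by
    filter_upwards [self_mem_nhdsWithin, hode, nhdsWithin_le_nhds hE', eventually_all.mpr hG0']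
      with u h1 h2 h3 h4
    exact ⟨h1, h2, h3, h4⟩
  obtain ⟨δ, hδ, hδ'⟩ := mem_nhdsGT_iff_exists_Ioo_subset.mp hall
  have hδ0 : (0 : ℝ) < δ := hδ
  set X : ℝ → Matrix (Fin r) (Fin r) ℝ := fun u => (Zm la c C s u)⁻¹ * W (C + u) with hX
  -- the last coordinate
  have hlast : ∀ q, ∃ b, ∀ u ∈ Ioo 0 δ, X u la q * (u ^ s * Real.exp (E u)) = b := by
    intro q
    refine const_of_deriv_zero fun u hu => ?_
    obtain ⟨h1, h2, h3, h4⟩ := hδ' hu
    have hu0 : (u : ℝ) ≠ 0 := h1.ne'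
    have hCu0 : C + u ≠ 0 := by positivity
    have h5 := (h2 la q).mul (((hasDerivAt_pow s u).mul (h3.exp)))
    refine h5.congr_deriv ?_
    obtain ⟨m, rfl⟩ : ∃ m, s = m + 1 := ⟨s - 1, by omega⟩
    simp only [if_true, Nat.add_sub_cancel, Pi.mul_apply]
    show -(X u la q) * (θ la u / (C + u) + C * ((m + 1 : ℕ) : ℝ) / ((C + u) * u)) *
      (u ^ (m + 1) * Real.exp (E u)) + X u la q * (((m + 1 : ℕ) : ℝ) * u ^ m * Real.exp (E u) +
        u ^ (m + 1) * (Real.exp (E u) * ((θ la u - ((m + 1 : ℕ) : ℝ)) * (C + u)⁻¹))) = 0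
    field_simp
    try ring
  choose l hl using hlast
  have hb : ∀ q, ∀ u ∈ Ioo 0 δ, X u la q = (u ^ s)⁻¹ * Real.exp (-E u) * l q := by
    intro q u hu
    have hu0 : (u : ℝ) ≠ 0 := hu.1.ne'
    rw [← hl q u hu, Real.exp_neg]
    have := (Real.exp_pos (E u)).ne'
    field_simp
  -- the other coordinates
  have hoth : ∀ i q, ∃ k, ∀ u ∈ Ioo 0 δ, i ≠ la → X u i q -
      ((u ^ s)⁻¹ * G0 i u + ρ0 i * Real.log u) * l q = k := by
    intro i q
    by_cases hi : i = la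
    · exact ⟨0, fun u hu h => absurd hi h⟩
    have hk0 : ∀ u ∈ Ioo 0 δ, HasDerivAt (fun u => X u i q -
        ((u ^ s)⁻¹ * G0 i u + ρ0 i * Real.log u) * l q) 0 u := by
      intro u hu
      obtain ⟨h1, h2, h3, h4⟩ := hδ' hu
      have h5 := (h2 i q).sub ((h4 i).mul_const (l q))
      refine h5.congr_deriv ?_
      have h6 := hb q u hu
      show -(X u la q) * (θ i u / (C + u) + if i = la then C * s / ((C + u) * u) else 0) - _ = 0
      rw [h6, if_neg hi]
      ring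
    obtain ⟨k, hk⟩ := const_of_deriv_zero hk0
    exact ⟨k, fun u hu _ => hk u hu⟩
  choose κ hκ using hoth
  refine ⟨fun i q => if i = la then 0 else κ i q, l, fun i => if i = la then 0 else ρ0 i,
    fun i => if i = la then (fun u => Real.exp (-E u)) else G0 i, fun i => ?_, fun u => ?_, ?_,
    fun q => ?_, ?_⟩
  · by_cases hi : i = la
    · simpa [hi] using hexp
    · simpa [hi] using hG0 i
  · simpa using Real.exp_pos _
  · simp
  · simp
  · filter_upwards [Ioo_mem_nhdsGT hδ0] with u hu i q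
    show X u i q = _
    by_cases hi : i = la
    · subst hi
      simp only [if_true, zero_mul, add_zero, zero_add]
      exact hb q u hu
    · simp only [if_neg hi]
      have := hκ i q u hu hi
      linarith

/-- The logarithmic structure at the conifold point, general form. -/
theorem con_gen (hC : 0 < C) (hs : 1 ≤ s) (hc : c la = s)
    (W : ℝ → Matrix (Fin r) (Fin r) ℝ)
    (hW : ∀ w, C < w → ∀ i q, HasDerivAt (fun x => W x i q)
      (-(sh (fun a => W w a q) i / w +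
        (if i = la then C * ∑ a, c a * W w a q else 0) / (w * (w - C)))) w)
    (hdet : ∀ w, C < w → IsUnit (W w).det) :
    ∃ (v l : Fin r → ℝ) (A : ℝ → Matrix (Fin r) (Fin r) ℝ),
      (∀ a i, MerG fun u => A u a i) ∧ (∀ a, MerG fun u => (W (C + u) *ᵥ v) a) ∧
      ∀ᶠ u in 𝓝[>] 0, W (C + u) = A u + Real.log u • vecMulVec (W (C + u) *ᵥ v) l := by
  obtain ⟨κ, l, ρ, G, hG, hGpos, hρ, hκ, hform⟩ := coord_form la c hC hs hc W hW
  have hZan := Zm_analytic la c C s hC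
  have hZ0 : IsUnit (Zm la c C s 0).det := Zm_zero_isUnit la c
  have hdetZ : ∀ᶠ u in 𝓝 (0 : ℝ), (Zm la c C s u).det ≠ 0 :=
    (analyticAt_det hZan).continuousAt.eventually_ne hZ0.ne_zero
  -- `W = Z X`
  have hWX : ∀ᶠ u in 𝓝[>] (0 : ℝ), ∀ i q, W (C + u) i q = ∑ j, Zm la c C s u i j *
      (κ j q + ((u ^ s)⁻¹ * G j u + ρ j * Real.log u) * l q) := by
    filter_upwards [hform, nhdsWithin_le_nhds hdetZ] with u hu hd i q
    have h1 : Zm la c C s u * ((Zm la c C s u)⁻¹ * W (C + u)) = W (C + u) := by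
      rw [← Matrix.mul_assoc, Matrix.mul_nonsing_inv _ (isUnit_iff_ne_zero.mpr hd), Matrix.one_mul]
    have h2 := congrFun (congrFun h1 i) q
    rw [Matrix.mul_apply] at h2
    rw [← h2]
    exact Finset.sum_congr rfl fun j _ => by rw [hu j q]
  -- the vector `v`
  obtain ⟨u1, hu1, hu1W, hu1Z⟩ : ∃ u : ℝ, 0 < u ∧ (∀ i q, W (C + u) i q = ∑ j, Zm la c C s u i j *
      (κ j q + ((u ^ s)⁻¹ * G j u + ρ j * Real.log u) * l q)) ∧ (Zm la c C s u).det ≠ 0 := by
    have h0 : ∀ᶠ u in 𝓝[>] (0 : ℝ), (Zm la c C s u).det ≠ 0 := nhdsWithin_le_nhds hdetZ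
    have h1 : ∀ᶠ u in 𝓝[>] (0 : ℝ), 0 < u := self_mem_nhdsWithin
    exact (h1.and (hWX.and h0)).exists
  set V : ℝ → Fin r → ℝ := fun u => Zm la c C s u *ᵥ ρ with hV
  have hWdet : IsUnit (W (C + u1)).det := hdet _ (by linarith)
  set v : Fin r → ℝ := (W (C + u1))⁻¹ *ᵥ V u1 with hv
  have hWv : W (C + u1) *ᵥ v = V u1 := by
    rw [hv, Matrix.mulVec_mulVec, Matrix.mul_nonsing_inv _ hWdet, Matrix.one_mulVec]
  -- general formula for `W *ᵥ x`
  have hWx : ∀ u, (∀ i q, W (C + u) i q = ∑ j, Zm la c C s u i j *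
      (κ j q + ((u ^ s)⁻¹ * G j u + ρ j * Real.log u) * l q)) → ∀ x : Fin r → ℝ,
      W (C + u) *ᵥ x = Zm la c C s u *ᵥ fun j => (κ *ᵥ x) j +
        ((u ^ s)⁻¹ * G j u + ρ j * Real.log u) * (l ⬝ᵥ x) := by
    intro u hu x
    funext i
    simp only [Matrix.mulVec, dotProduct]
    simp only [hu, Finset.sum_mul]
    rw [Finset.sum_comm]
    refine Finset.sum_congr rfl fun j _ => ?_
    rw [Finset.mul_sum, ← Finset.sum_add_distrib, Finset.mul_sum]
    exact Finset.sum_congr rfl fun q _ => by ring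
  have hinj : (fun j => (κ *ᵥ v) j + ((u1 ^ s)⁻¹ * G j u1 + ρ j * Real.log u1) * (l ⬝ᵥ v)) = ρ := by
    have h1 := hWx u1 hu1W v
    rw [hWv] at h1
    have h2 : Function.Injective (Zm la c C s u1).mulVec :=
      Matrix.mulVec_injective_iff_isUnit.mpr ((Matrix.isUnit_iff_isUnit_det _).mpr
        (isUnit_iff_ne_zero.mpr hu1Z))
    exact (h2 h1).symm
  have hlv : l ⬝ᵥ v = 0 := by
    have h1 := congrFun hinj la
    have h2 : (κ *ᵥ v) la = 0 := by
      simp only [Matrix.mulVec, dotProduct, hκ, zero_mul, Finset.sum_const_zero]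
    simp only [h2, hρ, zero_mul, add_zero, zero_add] at h1
    have h3 : (0 : ℝ) < (u1 ^ s)⁻¹ * G la u1 := mul_pos (by positivity) (hGpos u1)
    rcases mul_eq_zero.mp h1 with h4 | h4
    · exact absurd h4 h3.ne'
    · exact h4
  have hκv : κ *ᵥ v = ρ := by
    rw [hlv] at hinj
    simpa using hinj
  have hVv : ∀ u, (∀ i q, W (C + u) i q = ∑ j, Zm la c C s u i j *
      (κ j q + ((u ^ s)⁻¹ * G j u + ρ j * Real.log u) * l q)) → W (C + u) *ᵥ v = V u := by
    intro u hu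
    rw [hWx u hu v, hlv, hκv]
    simp [hV]
  -- the meromorphic part
  refine ⟨v, l, fun u => Matrix.of fun i q => (u ^ s)⁻¹ * ∑ j, Zm la c C s u i j *
    (u ^ s * κ j q + G j u * l q), fun a i => ?_, fun a => ?_, ?_⟩
  · refine merG_of s (g := fun u => ∑ j, Zm la c C s u a j * (u ^ s * κ j i + G j u * l i))
      (Finset.analyticAt_fun_sum _ fun j _ => (hZan a j).mul
        (((analyticAt_id.pow s).mul analyticAt_const).add ((hG j).mul analyticAt_const)))
      (Eventually.of_forall fun u => ?_)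
    simp
  · refine merG_of 0 (g := fun u => V u a) ?_ ?_
    · simp only [hV, Matrix.mulVec, dotProduct]
      exact Finset.analyticAt_fun_sum _ fun j _ => (hZan a j).mul analyticAt_const
    · filter_upwards [hWX] with u hu
      rw [hVv u hu]
      simp
  · filter_upwards [hWX, self_mem_nhdsWithin] with u hu hu0
    have hu0' : (u : ℝ) ≠ 0 := ne_of_gt hu0
    ext i q
    rw [Matrix.add_apply, Matrix.smul_apply, Matrix.vecMulVec_apply, hVv u hu, hu i q,
      Matrix.of_apply, smul_eq_mul]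
    simp only [hV, Matrix.mulVec, dotProduct]
    rw [Finset.sum_mul, Finset.mul_sum, Finset.mul_sum, ← Finset.sum_add_distrib]
    refine Finset.sum_congr rfl fun j _ => ?_
    have h5 : (u ^ s)⁻¹ * (Zm la c C s u i j * (u ^ s * κ j q + G j u * l q)) =
        Zm la c C s u i j * (κ j q + (u ^ s)⁻¹ * G j u * l q) := by
      field_simp
    rw [h5]
    ring

end main

end Pool.Agent.MT100.H34
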