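import Mathlib

/-!
# Real power series with geometric coefficients (MT100)
-/

set_option autoImplicit false

namespace Pool.Agent.MT100.H34

open Filter Topology Set

/-- The sum of a power series. -/
noncomputable def ser (a : ℕ → ℝ) (u : ℝ) : ℝ := ∑' k, a k * u ^ k

/-- Geometric bound. -/
def Geo (a : ℕ → ℝ) (M K : ℝ) : Prop := ∀ k, |a k| ≤ M * K ^ k

variable {a b : ℕ → ℝ} {M K : ℝ}

theorem Geo.nonneg (h : Geo a M K) : 0 ≤ M := by
  have := h 0
  simp only [pow_zero, mul_one] at this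
  exact (abs_nonneg _).trans this

theorem Geo.summable (h : Geo a M K) (hK : 0 ≤ K) {u : ℝ} (hu : K * |u| < 1) :
    Summable fun k => a k * u ^ k := by
  refine Summable.of_norm_bounded (g := fun k => M * (K * |u|) ^ k)
    ((summable_geometric_of_lt_one (by positivity) hu).mul_left M) fun k => ?_
  rw [Real.norm_eq_abs, abs_mul, abs_pow, mul_pow, ← mul_assoc]
  exact mul_le_mul_of_nonneg_right (h k) (by positivity)

theorem eventually_small (K : ℝ) : ∀ᶠ u in 𝓝 (0 : ℝ), K * |u| < 1 := by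
  have : ContinuousAt (fun u : ℝ => K * |u|) 0 := by fun_prop
  exact this.eventually_lt_const (by simp)

theorem Geo.analyticAt (h : Geo a M K) (hK : 0 ≤ K) : AnalyticAt ℝ (ser a) 0 := by
  refine ⟨FormalMultilinearSeries.ofScalars ℝ a, ?_⟩
  rw [hasFPowerSeriesAt_iff]
  filter_upwards [eventually_small K] with u hu
  have := (h.summable hK hu).hasSum
  simpa [ser, FormalMultilinearSeries.coeff_ofScalars, mul_comm] using this

theorem Geo.shift (h : Geo a M K) : Geo (fun k => a (k + 1)) (M * K) K := fun k => by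
  have := h (k + 1)
  rwa [pow_succ', ← mul_assoc] at this

theorem summable_deriv {q : ℝ} (hq0 : 0 ≤ q) (hq : q < 1) :
    Summable fun k : ℕ => ((k : ℝ)) * q ^ (k - 1) := by
  have h := (summable_pow_mul_geometric_of_norm_lt_one 1
    (show ‖q‖ < 1 by rwa [Real.norm_of_nonneg hq0]))
  have h2 : Summable fun k : ℕ => ((k : ℝ) + 1) * q ^ k := by
    have h3 := h.add (summable_geometric_of_lt_one hq0 hq)
    refine h3.congr fun k => ?_
    simp only [pow_one]
    ring
  rw [← summable_nat_add_iff 1]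
  refine h2.congr fun k => ?_
  simp

theorem Geo.hasDerivAt' (h : Geo a M K) (hK : 0 < K) {u : ℝ} (hu : K * |u| < 1) :
    HasDerivAt (ser a) (∑' k, a k * ((k : ℝ) * u ^ (k - 1))) u := by
  obtain ⟨q, hq1, hq2⟩ := exists_between hu
  have hq0 : 0 ≤ q := (by positivity : (0 : ℝ) ≤ K * |u|).trans hq1.le
  have hmem : ∀ y ∈ Metric.ball (0 : ℝ) (q / K), K * |y| < q := by
    intro y hy
    rw [Metric.mem_ball, Real.dist_eq, sub_zero, lt_div_iff₀ hK] at hy
    linarith [mul_comm K |y|]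
  have hu' : u ∈ Metric.ball (0 : ℝ) (q / K) := by
    rw [Metric.mem_ball, Real.dist_eq, sub_zero, lt_div_iff₀ hK]
    linarith [mul_comm K |u|]
  have h0 : (0 : ℝ) ∈ Metric.ball (0 : ℝ) (q / K) := by
    rw [Metric.mem_ball, dist_self]
    have := (by positivity : (0 : ℝ) ≤ K * |u|).trans_lt hq1
    positivity
  have key := hasDerivAt_tsum_of_isPreconnected (𝕜 := ℝ) (F := ℝ)
    (u := fun k : ℕ => M * K * ((k : ℝ) * q ^ (k - 1)))
    (g := fun k y => a k * y ^ k) (g' := fun k y => a k * ((k : ℝ) * y ^ (k - 1)))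
    (t := Metric.ball (0 : ℝ) (q / K)) (y₀ := 0) (y := u)
    ((summable_deriv hq0 hq2).mul_left _) Metric.isOpen_ball
    (convex_ball _ _).isPreconnected (fun n y _ => (hasDerivAt_pow n y).const_mul (a n)) ?_ h0
    (h.summable hK.le (by simp)) hu'
  · exact key
  · intro n y hy
    rcases Nat.eq_zero_or_pos n with rfl | hn
    · simp
    · obtain ⟨m, rfl⟩ := Nat.exists_eq_succ_of_ne_zero hn.ne'
      simp only [Nat.succ_eq_add_one, Nat.add_sub_cancel]
      rw [Real.norm_eq_abs, abs_mul, abs_mul, abs_pow, Nat.abs_cast]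
      have h1 := h (m + 1)
      have h2 : (K * |y|) ^ m ≤ q ^ m := pow_le_pow_left₀ (by positivity) (hmem y hy).le m
      calc |a (m + 1)| * (((m + 1 : ℕ) : ℝ) * |y| ^ m)
          ≤ M * K ^ (m + 1) * (((m + 1 : ℕ) : ℝ) * |y| ^ m) :=
            mul_le_mul_of_nonneg_right h1 (by positivity)
        _ = M * K * (((m + 1 : ℕ) : ℝ) * (K * |y|) ^ m) := by
            rw [mul_pow]; ring
        _ ≤ M * K * (((m + 1 : ℕ) : ℝ) * q ^ m) := by
            have := h.nonneg
            gcongr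

theorem Geo.hasDerivAt (h : Geo a M K) (hK : 0 < K) {u : ℝ} (hu : K * |u| < 1) :
    HasDerivAt (ser a) (ser (fun k => ((k : ℝ) + 1) * a (k + 1)) u) u := by
  have h1 := h.hasDerivAt' hK hu
  have hs : Summable fun k : ℕ => a k * ((k : ℝ) * u ^ (k - 1)) := by
    refine Summable.of_norm_bounded (g := fun k : ℕ => M * K * ((k : ℝ) * (K * |u|) ^ (k - 1)))
      ((summable_deriv (by positivity) hu).mul_left _) fun k => ?_
    rcases Nat.eq_zero_or_pos k with rfl | hn
    · simp
    · obtain ⟨m, rfl⟩ := Nat.exists_eq_succ_of_ne_zero hn.ne'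
      simp only [Nat.succ_eq_add_one, Nat.add_sub_cancel]
      rw [Real.norm_eq_abs, abs_mul, abs_mul, abs_pow, Nat.abs_cast]
      calc |a (m + 1)| * (((m + 1 : ℕ) : ℝ) * |u| ^ m)
          ≤ M * K ^ (m + 1) * (((m + 1 : ℕ) : ℝ) * |u| ^ m) :=
            mul_le_mul_of_nonneg_right (h (m + 1)) (by positivity)
        _ = M * K * (((m + 1 : ℕ) : ℝ) * (K * |u|) ^ m) := by
            rw [mul_pow]; ring
  have h2 : ∑' k, a k * ((k : ℝ) * u ^ (k - 1)) = ser (fun k => ((k : ℝ) + 1) * a (k + 1)) u := by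
    rw [hs.tsum_eq_zero_add]
    simp only [Nat.cast_zero, zero_mul, mul_zero, zero_add, ser, Nat.add_sub_cancel]
    refine tsum_congr fun k => ?_
    push_cast
    ring
  rwa [h2] at h1

theorem ser_zero (a : ℕ → ℝ) : ser a 0 = a 0 := by
  unfold ser
  rw [tsum_eq_single 0 (fun k hk => by simp [hk])]
  simp

/-- Analytic functions at `0` are sums of power series. -/
theorem exists_ser {f : ℝ → ℝ} (hf : AnalyticAt ℝ f 0) :
    ∃ (a : ℕ → ℝ) (M K : ℝ), 0 < K ∧ Geo a M K ∧ ∀ᶠ u in 𝓝 0, f u = ser a u := by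
  obtain ⟨p, hp⟩ := hf
  obtain ⟨C, r, hC, hr, hb⟩ := p.le_mul_pow_of_radius_pos hp.radius_pos
  refine ⟨fun k => p.coeff k, C, r, hr, fun k => ?_, ?_⟩
  · have h1 := hb k
    rw [FormalMultilinearSeries.norm_apply_eq_norm_coef] at h1
    simpa using h1
  · rw [hasFPowerSeriesAt_iff] at hp
    filter_upwards [hp] with u hu
    rw [zero_add] at hu
    rw [← hu.tsum_eq]
    unfold ser
    exact tsum_congr fun k => by simp [mul_comm]

/-- Analytic antiderivative. -/
theorem exists_antideriv {f : ℝ → ℝ} (hf : AnalyticAt ℝ f 0) :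
    ∃ F : ℝ → ℝ, AnalyticAt ℝ F 0 ∧ ∀ᶠ u in 𝓝 0, HasDerivAt F (f u) u := by
  obtain ⟨a, M, K, hK, ha, hfa⟩ := exists_ser hf
  let b : ℕ → ℝ := fun k => if k = 0 then 0 else a (k - 1) / k
  have hb : Geo b (M / K) K := by
    intro k
    rcases Nat.eq_zero_or_pos k with rfl | hk
    · simp only [b, if_true, abs_zero, pow_zero, mul_one]
      exact div_nonneg ha.nonneg hK.le
    · obtain ⟨m, rfl⟩ := Nat.exists_eq_succ_of_ne_zero hk.ne'
      simp only [b, Nat.succ_eq_add_one, Nat.add_eq_zero_iff, one_ne_zero, and_false, if_false,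
        Nat.add_sub_cancel]
      rw [abs_div, Nat.abs_cast, pow_succ]
      have h1 : M / K * (K ^ m * K) = M * K ^ m := by field_simp
      rw [h1]
      have h2 : (1 : ℝ) ≤ ((m + 1 : ℕ) : ℝ) := by push_cast; linarith [(Nat.cast_nonneg m : (0:ℝ) ≤ m)]
      calc |a m| / ((m + 1 : ℕ) : ℝ) ≤ |a m| / 1 := by
            gcongr
        _ = |a m| := by rw [div_one]
        _ ≤ _ := ha m
  refine ⟨ser b, hb.analyticAt hK.le, ?_⟩
  filter_upwards [hfa, eventually_small K] with u h1 h2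
  have h3 := hb.hasDerivAt hK h2
  have h4 : (fun k : ℕ => ((k : ℝ) + 1) * b (k + 1)) = a := by
    funext k
    simp only [b, Nat.add_eq_zero_iff, one_ne_zero, and_false, if_false, Nat.add_sub_cancel]
    push_cast
    field_simp
  rw [h4, ← h1] at h3
  exact h3

/-- `f u = f 0 + u g u` with `g` analytic. -/
theorem exists_slope {f : ℝ → ℝ} (hf : AnalyticAt ℝ f 0) :
    ∃ g : ℝ → ℝ, AnalyticAt ℝ g 0 ∧ ∀ u, f u = f 0 + u * g u := by
  obtain ⟨p, hp⟩ := hf
  refine ⟨dslope f 0, ⟨_, hp.has_fpower_series_dslope_fslope⟩, fun u => ?_⟩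
  have := sub_smul_dslope f 0 u
  rw [sub_zero, smul_eq_mul] at this
  linarith

/-- Antiderivative of a pole times an analytic function. -/
theorem exists_antideriv_pole (m : ℕ) {f : ℝ → ℝ} (hf : AnalyticAt ℝ f 0) :
    ∃ (G : ℝ → ℝ) (ρ : ℝ), AnalyticAt ℝ G 0 ∧
      ∀ᶠ u in 𝓝[>] 0, HasDerivAt (fun u => (u ^ m)⁻¹ * G u + ρ * Real.log u)
        ((u ^ m)⁻¹ * f u) u := by
  induction m generalizing f with
  | zero =>
    obtain ⟨F, h1, h2⟩ := exists_antideriv hf
    refine ⟨F, 0, h1, ?_⟩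
    filter_upwards [nhdsWithin_le_nhds h2] with u hu
    simpa using hu
  | succ m ih =>
    obtain ⟨g, hg1, hg2⟩ := exists_slope hf
    obtain ⟨G, ρ, hG1, hG2⟩ := ih hg1
    rcases Nat.eq_zero_or_pos m with rfl | hm
    · refine ⟨fun u => u * G u, ρ + f 0, analyticAt_id.mul hG1, ?_⟩
      filter_upwards [hG2, self_mem_nhdsWithin, Ioo_mem_nhdsGT one_pos] with u hu1 hu2 _
      have hu0 : (u : ℝ) ≠ 0 := ne_of_gt hu2
      have h3 := hu1.add ((Real.hasDerivAt_log hu0).const_mul (f 0))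
      have h4 : (u ^ (0 + 1))⁻¹ * f u = (u ^ 0)⁻¹ * g u + f 0 * u⁻¹ := by
        rw [hg2 u]
        field_simp
        ring
      rw [h4]
      refine h3.congr_of_eventuallyEq ?_
      filter_upwards [eventually_ne_nhds hu0] with y hy
      simp only [Pi.add_apply]
      field_simp
      ring
    · refine ⟨fun u => u * (G u + -(f 0 / m)), ρ, analyticAt_id.mul (hG1.add analyticAt_const), ?_⟩
      filter_upwards [hG2, self_mem_nhdsWithin] with u hu1 hu2
      have hu0 : (u : ℝ) ≠ 0 := ne_of_gt hu2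
      have hm0 : (m : ℝ) ≠ 0 := by exact_mod_cast hm.ne'
      have h5 : HasDerivAt (fun u : ℝ => (u ^ m)⁻¹) (-(m * u ^ (m - 1)) / (u ^ m) ^ 2) u :=
        (hasDerivAt_pow m u).inv (pow_ne_zero _ hu0)
      have h3 := hu1.add (h5.const_mul (-(f 0 / m)))
      have h4 : (u ^ (m + 1))⁻¹ * f u =
          (u ^ m)⁻¹ * g u + -(f 0 / m) * (-(m * u ^ (m - 1)) / (u ^ m) ^ 2) := by
        rw [hg2 u]
        obtain ⟨n, rfl⟩ := Nat.exists_eq_succ_of_ne_zero hm.ne'
        simp only [Nat.succ_eq_add_one, Nat.add_sub_cancel]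
        field_simp
        ring
      rw [h4]
      refine h3.congr_of_eventuallyEq ?_
      filter_upwards [eventually_ne_nhds hu0] with y hy
      simp only [Pi.add_apply]
      field_simp
      ring

end Pool.Agent.MT100.H34
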